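import Pool.Agent.Work.MP_bb0df9_an.B1
import Pool.Agent.Work.MP_bb0df9_an.WdLoc
import Pool.Agent.Work.MP_bb0df9_an.Concat
import Pool.Agent.Work.MP_bb0df9_an.Dini
import Pool.Agent.Work.MP_bb0df9_an.ClaimA
import Pool.Agent.Work.MP_bb0df9_an.OneJump
import Pool.Agent.Work.MP_bb0df9_an.PtSum
import Pool.Agent.Work.MP_bb0df9_an.Rob1
import Pool.Agent.Work.MP_bb0df9_an.Robust
import Pool.Agent.Work.MP_bb0df9_an.Split
import Pool.Agent.Work.MP_bb0df9_an.Refine
import Pool.Agent.Work.MP_bb0df9_an.Cross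
import Pool.Agent.Work.MP_bb0df9_an.Lim
import Pool.Agent.Work.MP_bb0df9_an.Arc
import Pool.Agent.Work.MP_bb0df9_an.Tz
import Pool.Agent.Work.MP_bb0df9_an.Sg
import Pool.Agent.Work.MP_bb0df9_an.MVI
import Pool.Agent.Work.MP_bb0df9_an.Cutoff
import Pool.Agent.Work.MP_bb0df9_an.Init
import Pool.Agent.Work.MP_bb0df9_an.Grad
import Pool.Agent.Work.MP_bb0df9_an.Loc
import Pool.Agent.Work.MP_bb0df9_an.Moll
import Pool.Agent.Work.MP_bb0df9_an.Null
import Pool.Agent.Work.MP_bb0df9_an.Up
import Pool.Agent.Work.MP_bb0df9_an.Half1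
import Pool.Agent.Work.MP_bb0df9_an.Ring
import Pool.Agent.Work.MP_bb0df9_an.Avg
import Pool.Agent.Work.MP_bb0df9_an.Img
import Pool.Agent.Work.MP_bb0df9_an.Upper
import Pool.Agent.Work.MP_bb0df9_an.Prod
import Pool.Agent.Work.MP_bb0df9_an.Var
import Pool.Agent.Work.MP_bb0df9_an.CnedRing
import Pool.Agent.Work.MP_bb0df9_an.Half2

/-!
Sobolev removability and CNED sets: for every `n ≥ 2`, a closed set `E` of `ℝⁿ` is removable
for continuous `W^{1,n}` functions if and only if it is CNED (the full positive answer to Q1).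
-/

namespace Pool.Agent.Results.MP_bb0df9_an.RemovableIffCNED

open CNEDRem

theorem half1 : StmtHalf1 := by
  have hDini := thmDini thmWdTri thmWdSymm thmWdLoc
  have hClaimA := thmClaimA hDini thmWdSymm thmWdLb thmWdSub
  have hOneJump := thmOneJump hClaimA thmConcat thmWdTri thmWdSymm
  have hRobust := thmRobust (thmRob1 thmPtSum) thmWdTri
  have hMulti := thmMulti (thmSplit hOneJump hRobust)
  have hSeq := thmSeq (thmRefine hMulti) thmPtSum
  have hUry := thmUrysohn hSeq (thmLim thmCross)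
  have hSg := thmSg thmTz thmAnti
  have hInit := thmInit thmArc thmTz hSg (thmCutoff thmMVI)
  have hMoll := thmMoll thmArc2 thmMVI
  have hNull := thmNull
  have hUp := thmUp (thmGrad thmWdLoc) thmLoc hNull hMoll
  exact thmHalf1 hUry hInit hUp thmExh

theorem half2 : StmtHalf2 := by
  have hSg := thmSg thmTz thmAnti
  have hUpper := thmUpper thmArc2 thmAvg hSg thmMVI thmImg
  exact thmHalf2 (thmCnedRing (thmRing thmArc) hUpper thmProd thmVar thmLoc)

/-- For every `n ≥ 2`, a closed set `E ⊆ ℝⁿ` is removable for continuous `W^{1,n}` functions if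
and only if it is CNED. -/
theorem result : ∀ n : ℕ, 2 ≤ n → ∀ E : Set (V n), IsClosed E → (Removable E ↔ CNED E) :=
  thmMain half1 half2

end Pool.Agent.Results.MP_bb0df9_an.RemovableIffCNED
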